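import Pool.Agent.H18.Sq.AI
import Pool.Agent.H18.Wd.Cnt
import Pool.Agent.H18.L.N902.EW.Ex

/-!
# Quotients with the mean squares of the tails
-/

set_option autoImplicit false
set_option linter.unusedSectionVars false

open Set

namespace Pool.Agent.H18.Sq

open Pool.Agent.N902.EW Pool.Agent.H18.Wd

section

variable {F : Type*} {E : Type*} [Field F] [Field E] [Algebra F E]

theorem ai_range {ι : Type*} [Fintype ι] {s t : ι → E} (hs : AlgebraicIndependent F s)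
    (h : ∀ i, s i ∈ clf F (range t)) : AlgebraicIndependent F t := by
  by_contra hcon
  obtain ⟨I, hI, hI'⟩ := exists_small t hcon
  have h1 : ∀ i, s i ∈ clf F (I : Set E) := fun i => clf_le (by rintro _ ⟨j, rfl⟩; exact hI' j) (h i)
  have h2 := (card_le_eRk hs h1).trans (Matroid.eRk_le_encard _ _)
  rw [encard_coe_eq_coe_finsetCard] at h2
  have h3 : Fintype.card ι ≤ I.card := by exact_mod_cast h2
  omega

/-- exchange in the fibres -/
theorem ai_fib {N κ : Type*} [Fintype κ] {s t : N × κ → E} (hs : AlgebraicIndependent F s)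
    (h : ∀ n b, s (n, b) ∈ clf F (range fun c => t (n, c))) : AlgebraicIndependent F t := by
  classical
  refine algebraicIndependent_of_finite_type fun T hT => ?_
  let B : Finset N := hT.toFinset.image Prod.fst
  have h1 : AlgebraicIndependent F (fun p : B × κ => t (p.1.1, p.2)) := by
    have h0 : AlgebraicIndependent F (fun p : B × κ => s (p.1.1, p.2)) := by
      refine hs.comp (fun p : B × κ => ((p.1.1, p.2) : N × κ)) ?_
      rintro ⟨a, b⟩ ⟨c, d⟩ hab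
      have h1 := (Prod.mk.injEq _ _ _ _ ▸ hab : (a : N) = c ∧ b = d)
      exact Prod.ext (Subtype.ext h1.1) h1.2
    refine ai_range h0 ?_
    rintro ⟨a, b⟩
    refine clf_mono ?_ (h a.1 b)
    rintro z ⟨c, rfl⟩
    exact ⟨(a, c), rfl⟩
  refine h1.comp (fun p : T => ((⟨p.1.1, Finset.mem_image.2 ⟨p.1, by simp, rfl⟩⟩, p.1.2) : B × κ)) ?_
  intro p q hpq
  have h2 := (Prod.mk.injEq _ _ _ _ ▸ hpq : (⟨p.1.1, _⟩ : B) = ⟨q.1.1, _⟩ ∧ p.1.2 = q.1.2)
  exact Subtype.ext (Prod.ext (congrArg (fun z => z.1) h2.1) h2.2)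

end

/-- the even zeta values -/
theorem zeta_even_mem {L : Subfield ℂ} (hpi : (Real.pi : ℂ) ∈ L) {n : ℕ} (hn : n ≠ 0) : riemannZeta ((2 * n : ℕ) : ℂ) ∈ L := by
  have h6 := riemannZeta_two_mul_nat (k := n) hn
  have h7 : ((2 * n : ℕ) : ℂ) = 2 * (n : ℂ) := by push_cast; ring
  rw [h7, h6]
  have hq : ∀ q : ℚ, (q : ℂ) ∈ L := fun q => SubfieldClass.ratCast_mem L q
  have hn' : ∀ n : ℕ, (n : ℂ) ∈ L := fun n => natCast_mem L n
  refine L.div_mem (L.mul_mem (L.mul_mem (L.mul_mem (L.pow_mem (L.neg_mem L.one_mem) _) (L.pow_mem ?_ _)) (L.pow_mem hpi _))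
    (hq _)) (hn' _)
  exact_mod_cast hn' 2

theorem zeta_ne_zero' {n : ℕ} (hn : 2 ≤ n) : riemannZeta (n : ℂ) ≠ 0 :=
  riemannZeta_ne_zero_of_one_le_re (by
    simp only [Complex.natCast_re]
    exact_mod_cast (by omega : 1 ≤ n))

/-- the three quotients -/
noncomputable def q3 (n : ℕ) (x : ℂ) : Fin 3 → ℂ :=
  ![riemannZeta ((2 * n : ℕ) : ℂ) / PQ n x, PT (2 * n) x / PQ n x, PT n x ^ 2 / PQ n x]

/-- the three Poisson means -/
noncomputable def s3 (n : ℕ) (x : ℂ) : Fin 3 → ℂ := ![PS n x, PS (2 * n) x, PD n n x]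

/-- the means from the quotients -/
theorem s3_mem {L : Subfield ℂ} {n : ℕ} (hn : 2 ≤ n) {x : ℂ} (hQ : PQ n x ≠ 0) (hroot : ∀ z : ℂ, z ^ 2 ∈ L → z ∈ L)
    (hpi : (Real.pi : ℂ) ∈ L) (hz : riemannZeta n ∈ L) (h : ∀ i, q3 n x i ∈ L) (i : Fin 3) : s3 n x i ∈ L := by
  have h0 : riemannZeta ((2 * n : ℕ) : ℂ) / PQ n x ∈ L := h 0
  have h1 : PT (2 * n) x / PQ n x ∈ L := h 1
  have h2 : PT n x ^ 2 / PQ n x ∈ L := h 2
  have hz2 : riemannZeta ((2 * n : ℕ) : ℂ) ∈ L := zeta_even_mem hpi (by omega)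
  have hz0 : riemannZeta ((2 * n : ℕ) : ℂ) ≠ 0 := zeta_ne_zero' (by omega)
  have hQL : PQ n x ∈ L := by
    have h3 := L.div_mem hz2 h0
    have h4 : riemannZeta ((2 * n : ℕ) : ℂ) / (riemannZeta ((2 * n : ℕ) : ℂ) / PQ n x) = PQ n x := by field_simp
    rwa [h4] at h3
  have hT2 : PT (2 * n) x ∈ L := by
    have h3 := L.mul_mem h1 hQL
    rwa [div_mul_cancel₀ _ hQ] at h3
  have hT : PT n x ∈ L := by
    refine hroot _ ?_
    have h3 := L.mul_mem h2 hQL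
    rwa [div_mul_cancel₀ _ hQ] at h3
  have hS : PS n x ∈ L := by
    have h3 : PS n x = riemannZeta n - PT n x := by rw [zeta_split hn x]; ring
    rw [h3]; exact L.sub_mem hz hT
  have hS2 : PS (2 * n) x ∈ L := by
    have h3 : PS (2 * n) x = riemannZeta ((2 * n : ℕ) : ℂ) - PT (2 * n) x := by
      rw [zeta_split (k := 2 * n) (by omega) x]; ring
    rw [h3]; exact L.sub_mem hz2 hT2
  have hD : PD n n x ∈ L := by
    have h3 : PD n n x = (PQ n x - riemannZeta n ^ 2 + 2 * riemannZeta n * PS n x - PS (2 * n) x) / 2 := by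
      rw [PQ_eq hn]; ring
    have h2' : (2 : ℂ) ∈ L := by exact_mod_cast natCast_mem L 2
    rw [h3]
    exact L.div_mem (L.sub_mem (L.add_mem (L.sub_mem hQL (L.pow_mem hz 2)) (L.mul_mem (L.mul_mem h2' hz) hS)) hS2) h2'
  fin_cases i
  · exact hS
  · exact hS2
  · exact hD

section

variable {X : Set ℂ} {N : Set ℕ}

/-- the names of the quotients -/
abbrev Nm (X : Set ℂ) (N : Set ℕ) : Type := {q : (ℂ × ℕ) × Fin 3 // q.1.1 ∈ X ∧ q.1.2 ∈ N ∧ PQ q.1.2 q.1.1 ≠ 0}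

/-- the quotients by name -/
noncomputable def tn (q : Nm X N) : ℂ := q3 q.1.1.2 q.1.1.1 q.1.2

/-- the means by name -/
noncomputable def sn (q : Nm X N) : ℂ := s3 q.1.1.2 q.1.1.1 q.1.2

/-- the full family of the means -/
theorem ai_s3 (hX : ∀ x ∈ X, IsAlgebraic ℚ x ∧ ∀ y ∈ X, x + y ≠ 0) (hN : ∀ n ∈ N, 3 ≤ n ∧ Odd n) :
    AlgebraicIndependent KK (fun q : X × (N × Fin 3) => s3 q.2.1 q.1 q.2.2) := by
  let g : X × (N × Fin 3) → I2 X ⊕ I1 X := fun q =>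
    if q.2.2 = 0 then Sum.inr ⟨(q.2.1, q.1), by have := (hN _ q.2.1.2).1; show 2 ≤ q.2.1.1; omega, q.1.2⟩
    else if q.2.2 = 1 then Sum.inr ⟨(2 * q.2.1, q.1), by have := (hN _ q.2.1.2).1; show 2 ≤ 2 * q.2.1.1; omega, q.1.2⟩
    else Sum.inl ⟨((q.2.1, q.2.1), q.1), by have := (hN _ q.2.1.2).1; show 2 ≤ q.2.1.1; omega,
      by have := (hN _ q.2.1.2).1; show 2 ≤ q.2.1.1; omega, q.1.2⟩
  have g0 : ∀ (x : X) (n : N), g (x, (n, 0)) = Sum.inr ⟨(n.1, x.1), by have := (hN _ n.2).1; show 2 ≤ n.1; omega, x.2⟩ := fun x n => rfl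
  have g1 : ∀ (x : X) (n : N), g (x, (n, 1)) = Sum.inr ⟨(2 * n.1, x.1), by have := (hN _ n.2).1; show 2 ≤ 2 * n.1; omega, x.2⟩ := fun x n => rfl
  have g2 : ∀ (x : X) (n : N), g (x, (n, 2)) = Sum.inl ⟨((n.1, n.1), x.1), by have := (hN _ n.2).1; show 2 ≤ n.1; omega,
      by have := (hN _ n.2).1; show 2 ≤ n.1; omega, x.2⟩ := fun x n => rfl
  have hg : Function.Injective g := by
    rintro ⟨x, n, i⟩ ⟨x', n', i'⟩ h
    have hn := (hN _ n.2).2
    have hn' := (hN _ n'.2).2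
    have odd_ne : ∀ a b : ℕ, Odd a → a ≠ 2 * b := fun a b ha hab => by
      rw [hab] at ha
      exact (Nat.not_odd_iff_even.2 (even_two_mul _)) ha
    fin_cases i <;> fin_cases i'
    · have h1 := Sum.inr_injective (((g0 x n).symm.trans h).trans (g0 x' n'))
      have h2 := congrArg (fun z => z.1) h1
      obtain ⟨h3, h4⟩ := (Prod.mk.injEq _ _ _ _).mp h2
      exact Prod.ext (Subtype.ext h4) (Prod.ext (Subtype.ext h3) rfl)
    · exfalso
      have h1 := Sum.inr_injective (((g0 x n).symm.trans h).trans (g1 x' n'))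
      have h2 := congrArg (fun z => z.1) h1
      obtain ⟨h3, h4⟩ := (Prod.mk.injEq _ _ _ _).mp h2
      exact odd_ne _ _ hn h3
    · exfalso
      have h1 := ((g0 x n).symm.trans h).trans (g2 x' n')
      simp at h1
    · exfalso
      have h1 := Sum.inr_injective (((g1 x n).symm.trans h).trans (g0 x' n'))
      have h2 := congrArg (fun z => z.1) h1
      obtain ⟨h3, h4⟩ := (Prod.mk.injEq _ _ _ _).mp h2
      exact odd_ne _ _ hn' h3.symm
    · have h1 := Sum.inr_injective (((g1 x n).symm.trans h).trans (g1 x' n'))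
      have h2 := congrArg (fun z => z.1) h1
      obtain ⟨h3, h4⟩ := (Prod.mk.injEq _ _ _ _).mp h2
      have h5 : n.1 = n'.1 := by omega
      exact Prod.ext (Subtype.ext h4) (Prod.ext (Subtype.ext h5) rfl)
    · exfalso
      have h1 := ((g1 x n).symm.trans h).trans (g2 x' n')
      simp at h1
    · exfalso
      have h1 := ((g2 x n).symm.trans h).trans (g0 x' n')
      simp at h1
    · exfalso
      have h1 := ((g2 x n).symm.trans h).trans (g1 x' n')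
      simp at h1
    · have h1 := Sum.inl_injective (((g2 x n).symm.trans h).trans (g2 x' n'))
      have h2 := congrArg (fun z => z.1) h1
      obtain ⟨h3, h4⟩ := (Prod.mk.injEq _ _ _ _).mp h2
      obtain ⟨h5, h6⟩ := (Prod.mk.injEq _ _ _ _).mp h3
      exact Prod.ext (Subtype.ext h4) (Prod.ext (Subtype.ext h5) rfl)
  have h2 := (ai_PD X hX).comp g hg
  have h3 : Sum.elim (fun p : I2 X => PD p.1.1.1 p.1.1.2 p.1.2) (fun p : I1 X => PS p.1.1 p.1.2) ∘ g =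
      fun q : X × (N × Fin 3) => s3 q.2.1 q.1 q.2.2 := by
    funext q
    obtain ⟨x, n, i⟩ := q
    fin_cases i
    · show Sum.elim _ _ (g (x, (n, 0))) = _; rw [g0]; rfl
    · show Sum.elim _ _ (g (x, (n, 1))) = _; rw [g1]; rfl
    · show Sum.elim _ _ (g (x, (n, 2))) = _; rw [g2]; rfl
  rw [h3] at h2
  exact h2

theorem ai_sn (hX : ∀ x ∈ X, IsAlgebraic ℚ x ∧ ∀ y ∈ X, x + y ≠ 0) (hN : ∀ n ∈ N, 3 ≤ n ∧ Odd n) :
    AlgebraicIndependent KK (sn (X := X) (N := N)) := by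
  refine (ai_s3 hX hN).comp (fun q : Nm X N => (⟨q.1.1.1, q.2.1⟩, (⟨q.1.1.2, q.2.2.1⟩, q.1.2))) ?_
  intro p q h
  obtain ⟨h1, h2⟩ := (Prod.mk.injEq _ _ _ _).mp h
  obtain ⟨h3, h4⟩ := (Prod.mk.injEq _ _ _ _).mp h2
  exact Subtype.ext (Prod.ext (Prod.ext (congrArg (fun z => z.1) h1) (congrArg (fun z => z.1) h3)) h4)

theorem tri_n (hN : ∀ n ∈ N, 3 ≤ n ∧ Odd n) {Y : Set ℂ} (hpi : (Real.pi : ℂ) ∈ clf KK Y)
    (hz : ∀ n ∈ N, riemannZeta n ∈ clf KK Y) (i : Nm X N) :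
    ∃ D : Finset (Nm X N), i ∈ D ∧ ∀ j ∈ D, sn j ∈ clf KK (Y ∪ tn '' (D : Set (Nm X N))) := by
  classical
  obtain ⟨⟨⟨x, n⟩, b⟩, hx, hn, h0⟩ := i
  have hn3 := (hN n hn).1
  let f : Fin 3 → Nm X N := fun c => ⟨((x, n), c), hx, hn, h0⟩
  refine ⟨Finset.univ.image f, Finset.mem_image.2 ⟨b, Finset.mem_univ _, rfl⟩, ?_⟩
  intro j hj
  obtain ⟨c, -, rfl⟩ := Finset.mem_image.1 hj
  set S : Set ℂ := Y ∪ tn '' ((Finset.univ.image f : Finset (Nm X N)) : Set (Nm X N)) with hS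
  have hsub : Y ⊆ S := subset_union_left
  show s3 n x c ∈ _
  refine s3_mem (n := n) (x := x) (show 2 ≤ n by omega) h0 (fun z hz' => clf_pow two_ne_zero hz') (clf_mono hsub hpi) (clf_mono hsub (hz n hn)) (fun i => ?_) c
  exact subset_clf _ (Or.inr ⟨f i, Finset.mem_coe.2 (Finset.mem_image.2 ⟨i, Finset.mem_univ _, rfl⟩), rfl⟩)

variable {r : ℕ} {y : Fin r → ℂ}

theorem count_n (hX : ∀ x ∈ X, IsAlgebraic ℚ x ∧ ∀ y ∈ X, x + y ≠ 0) (hN : ∀ n ∈ N, 3 ≤ n ∧ Odd n)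
    (hpi : (Real.pi : ℂ) ∈ clf KK (range y)) (hz : ∀ n ∈ N, riemannZeta n ∈ clf KK (range y)) :
    {n : Fin r ⊕ Nm X N | Sum.elim (fun j => IsAlgebraic KK (y j)) (fun i => IsAlgebraic KK (tn i)) n}.encard ≤ (r : ℕ∞) := by
  have h := cnt (y := y) (ai_sn hX hN) (tri_n hN hpi hz)
  rwa [Fintype.card_fin] at h

theorem trdeg_n (hX : ∀ x ∈ X, IsAlgebraic ℚ x ∧ ∀ y ∈ X, x + y ≠ 0) (hN : ∀ n ∈ N, 3 ≤ n ∧ Odd n)
    (hpi : (Real.pi : ℂ) ∈ clf KK (range y)) (hz : ∀ n ∈ N, riemannZeta n ∈ clf KK (range y)) (A : Finset (Nm X N)) :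
    (A.card : Cardinal) ≤ Algebra.trdeg KK (IntermediateField.adjoin KK (range y ∪ tn '' (A : Set (Nm X N)))) :=
  trdeg_of_eRk (rk_ge (ai_sn hX hN) (tri_n hN hpi hz) A)

/-- the exceptional points -/
theorem exc_n (hX : ∀ x ∈ X, IsAlgebraic ℚ x ∧ ∀ y ∈ X, x + y ≠ 0) (hN : ∀ n ∈ N, 3 ≤ n ∧ Odd n)
    (hpi : (Real.pi : ℂ) ∈ clf KK (range y)) (hz : ∀ n ∈ N, riemannZeta n ∈ clf KK (range y)) :
    {x | x ∈ X ∧ ¬ AlgebraicIndependent (IntermediateField.adjoin KK (range y))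
      (fun p : N × Fin 3 => q3 p.1 x p.2)}.encard ≤ (r : ℕ∞) := by
  have h0 := exceptions (s := fun p : X × (N × Fin 3) => s3 p.2.1 p.1 p.2.2) (ai_s3 hX hN) y
    (fun (x : X) (p : N × Fin 3) => s3 p.1 x p.2) (fun x p => subset_clf _ (mem_insert _ _))
  refine le_trans ?_ h0
  rw [← Subtype.val_injective.encard_image]
  refine encard_le_encard ?_
  rintro x ⟨hx, hx'⟩
  refine ⟨⟨x, hx⟩, ?_, rfl⟩
  intro hs
  refine hx' ?_
  set L := IntermediateField.adjoin KK (range y)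
  have hs' : AlgebraicIndependent L (fun p : N × Fin 3 => s3 p.1 x p.2) := hs
  have hpi' : IsAlgebraic L (Real.pi : ℂ) := mem_clf.1 hpi
  have hz' : ∀ n ∈ N, IsAlgebraic L (riemannZeta n) := fun n hn => mem_clf.1 (hz n hn)
  have h2' : ∀ S : Set ℂ, (2 : ℂ) ∈ clf L S := fun S => by exact_mod_cast natCast_mem (clf L S) 2
  -- the family with the mean square
  have hq : AlgebraicIndependent L (fun p : N × Fin 3 => (![PS p.1 x, PS (2 * p.1) x, PQ p.1 x] : Fin 3 → ℂ) p.2) := by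
    refine ai_fib (s := fun p : N × Fin 3 => s3 p.1 x p.2) hs' ?_
    intro n b
    have hn := (hN n.1 n.2).1
    have m0 : PS n.1 x ∈ clf L (range fun c => (![PS n.1 x, PS (2 * n.1) x, PQ n.1 x] : Fin 3 → ℂ) c) :=
      subset_clf _ ⟨0, rfl⟩
    have m1 : PS (2 * n.1) x ∈ clf L (range fun c => (![PS n.1 x, PS (2 * n.1) x, PQ n.1 x] : Fin 3 → ℂ) c) :=
      subset_clf _ ⟨1, rfl⟩
    have m2 : PQ n.1 x ∈ clf L (range fun c => (![PS n.1 x, PS (2 * n.1) x, PQ n.1 x] : Fin 3 → ℂ) c) :=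
      subset_clf _ ⟨2, rfl⟩
    have mz : riemannZeta n.1 ∈ clf L (range fun c => (![PS n.1 x, PS (2 * n.1) x, PQ n.1 x] : Fin 3 → ℂ) c) :=
      clf_of_alg (hz' _ n.2)
    fin_cases b
    · exact m0
    · exact m1
    · show PD n.1 n.1 x ∈ _
      have h3 : PD n.1 n.1 x = (PQ n.1 x - riemannZeta n.1 ^ 2 + 2 * riemannZeta n.1 * PS n.1 x - PS (2 * n.1) x) / 2 := by
        rw [PQ_eq (by omega)]; ring
      rw [h3]
      exact (clf L _).div_mem ((clf L _).sub_mem ((clf L _).add_mem ((clf L _).sub_mem m2 ((clf L _).pow_mem mz 2))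
        ((clf L _).mul_mem ((clf L _).mul_mem (h2' _) mz) m0)) m1) (h2' _)
  refine ai_fib (s := fun p : N × Fin 3 => s3 p.1 x p.2) hs' ?_
  intro n b
  have hn := (hN n.1 n.2).1
  have hQ : PQ n.1 x ≠ 0 := by
    have h2 := hq.transcendental (n, 2)
    intro h3
    refine h2 ?_
    show IsAlgebraic L (PQ n.1 x)
    rw [h3]
    exact isAlgebraic_zero
  exact s3_mem (L := clf L (range fun c => q3 n.1 x c)) (show 2 ≤ n.1 by omega) hQ (fun z hz' => clf_pow two_ne_zero hz')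
    (clf_of_alg hpi') (clf_of_alg (hz' _ n.2)) (fun i => subset_clf (range fun c => q3 n.1 x c) ⟨i, rfl⟩) b

end

end Pool.Agent.H18.Sq
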