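import Pool.Agent.H18.Sq.Der

/-!
# The Poisson means of the double harmonic sums
-/

set_option autoImplicit false
set_option linter.unusedSectionVars false

open PowerSeries

namespace Pool.Agent.H18.Sq

open Pool.Agent.N902.EW

section

variable {K : Type*} [Field K] [CharZero K]

theorem pre_eq_zs (x : K) (m : ℕ) : pre m [x] = zs x m := by
  induction m with
  | zero => rfl
  | succ m ih => rw [pre_succ, ih]; rfl

theorem coeff_U_pre (q : ℕ) (v : List K) (n : ℕ) : coeff n (U (pre q v)) = coeff n (U v) / (n : K) ^ q := by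
  induction q with
  | zero => rw [pre_zero, pow_zero, div_one]
  | succ q ih => rw [pre_succ, U_cons, lt_zero, one_mul, coeff_ig, ih, div_div, pow_succ]

/-- `U (c :: w)` for the two letters `c = x` and `c = 0` -/
theorem U_two {x : K} (hx : x ≠ 0) (w : List K) : U (x :: w) + U (0 :: w) = ig (ex x * U w) := by
  rw [U_cons, U_cons, ← ig_add, lt_zero, lt_ne hx]
  congr 1
  ring

/-- the four inner words -/
noncomputable def in4 (x : K) (m q : ℕ) : K⟦X⟧ :=
  U (pre q (x :: -x :: pre m [x])) + U (pre q (x :: 0 :: pre m [x])) + U (pre q (0 :: -x :: pre m [x])) +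
    U (pre q (0 :: 0 :: pre m [x]))

theorem sum4 {x : K} (hx : x ≠ 0) (m : ℕ) : in4 x m 0 = ig (ex x * (ex (-x) * Hs (m + 2) x)) := by
  have h1 : ex (-x) * Hs (m + 2) x = U (-x :: zs x m) + U (0 :: zs x m) := by
    rw [U_two (neg_ne_zero.2 hx), ig_ex_zs hx]
  have h2 : ex x * (U (-x :: zs x m) + U (0 :: zs x m)) = ex x * U (-x :: zs x m) + ex x * U (0 :: zs x m) := by ring
  rw [h1, h2, ig_add, ← U_two hx, ← U_two hx, in4]
  simp only [pre_zero, pre_eq_zs]
  ring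

theorem coeff_in4 {x : K} (hx : x ≠ 0) (m q n : ℕ) :
    coeff n (in4 x m q) = if n = 0 then 0 else
      x ^ n / n.factorial * (∑ i ∈ Finset.range n, 1 / ((i : K) + 1) ^ (m + 2)) / (n : K) ^ (q + 1) := by
  have h1 : coeff n (in4 x m q) = coeff n (in4 x m 0) / (n : K) ^ q := by
    rw [in4, in4]
    simp only [map_add, coeff_U_pre, pow_zero, div_one, add_div]
  have h2 : ex x * (ex (-x) * Hs (m + 2) x) = Hs (m + 2) x := by
    rw [← mul_assoc, ← ex_add, add_neg_cancel, ex_zero, one_mul]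
  rw [h1, sum4 hx, h2, coeff_ig, Hs, coeff_mk]
  split_ifs with h
  · subst h; simp
  · rw [div_div, pow_succ, mul_comm ((n : K) ^ q)]

/-- the double harmonic sums, `∑_{a < b ≤ n} 1 / (a^k b^l)` -/
noncomputable def hh (K : Type*) [Field K] (k l n : ℕ) : K :=
  ∑ b ∈ Finset.range n, (∑ a ∈ Finset.range b, 1 / ((a : K) + 1) ^ k) / ((b : K) + 1) ^ l

/-- the series `∑ H_n(k,l) x^n / n!` -/
noncomputable def HH2 (k l : ℕ) (x : K) : K⟦X⟧ := PowerSeries.mk fun n => x ^ n / n.factorial * hh K k l n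

theorem th_HH2 {x : K} (hx : x ≠ 0) (m q : ℕ) : th (HH2 (m + 2) (q + 2) x) - x • (X * HH2 (m + 2) (q + 2) x) =
    in4 x m q - U (zs x (m + q + 2)) := by
  ext n
  rw [map_sub, map_sub, coeff_smul, coeff_th, coeff_in4 hx, coeff_U_zs hx]
  rcases n with _ | n
  · rw [if_pos rfl, if_pos rfl]; simp
  · rw [coeff_succ_X_mul, HH2, coeff_mk, coeff_mk, if_neg (Nat.succ_ne_zero n), if_neg (Nat.succ_ne_zero n), hh, hh,
      Finset.sum_range_succ, Finset.sum_range_succ (fun i => 1 / ((i : K) + 1) ^ (m + 2))]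
    have h1 : ((n + 1).factorial : K) = (n + 1) * n.factorial := by
      rw [Nat.factorial_succ]; push_cast; ring
    have h2 : (n.factorial : K) ≠ 0 := by exact_mod_cast n.factorial_ne_zero
    have h3 : ((n : K) + 1) ≠ 0 := by exact_mod_cast Nat.succ_ne_zero n
    rw [h1, smul_eq_mul, pow_succ x]
    push_cast
    field_simp
    ring

theorem coeff_zero_in (x : K) (hx : x ≠ 0) (m q : ℕ) : coeff 0 (in4 x m q - U (zs x (m + q + 2))) = 0 := by
  rw [map_sub, coeff_in4 hx, coeff_U_zs hx, if_pos rfl, if_pos rfl, sub_zero]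

theorem ig_ex_in {x : K} (hx : x ≠ 0) (m q : ℕ) :
    ig (ex (-x) * (in4 x m q - U (zs x (m + q + 2)))) = ex (-x) * HH2 (m + 2) (q + 2) x := by
  have h1 : th (ex (-x) * HH2 (m + 2) (q + 2) x) = ex (-x) * (in4 x m q - U (zs x (m + q + 2))) := by
    rw [← th_HH2 hx m q, th_mul, th_ex, smul_eq_C_mul, smul_eq_C_mul, map_neg]
    ring
  have h0 : coeff 0 (ex (-x) * HH2 (m + 2) (q + 2) x) = 0 := by
    rw [coeff_zero_eq_constantCoeff_apply, map_mul, ← coeff_zero_eq_constantCoeff_apply (φ := HH2 (m + 2) (q + 2) x), HH2,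
      coeff_mk, hh]
    simp
  rw [← h1, ig_th h0]

/-- the part of the element with the first letter `b` -/
noncomputable def s2b (b x : K) (hx : x ≠ 0) (m q : ℕ) : AA K :=
  mk 0 (b :: pre q (x :: -x :: pre m [x])) (adm_word hx b x (-x) q m) +
    mk 0 (b :: pre q (x :: 0 :: pre m [x])) (adm_word hx b x 0 q m) +
    mk 0 (b :: pre q (0 :: -x :: pre m [x])) (adm_word hx b 0 (-x) q m) +
    mk 0 (b :: pre q (0 :: 0 :: pre m [x])) (adm_word hx b 0 0 q m) -
    mk 0 (b :: pre (m + q + 2) [x]) (adm_yb hx b (m + q + 2))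

/-- the element of the algebra with the value `S_{m+2,q+2}(x)` -/
noncomputable def s2 (x : K) (hx : x ≠ 0) (m q : ℕ) : AA K := s2b (-x) x hx m q + s2b 0 x hx m q

theorem s2b_val (b x : K) (hx : x ≠ 0) (m q : ℕ) : (s2b b x hx m q).1 = ig (lt b * (in4 x m q - U (zs x (m + q + 2)))) := by
  have h1 : (s2b b x hx m q).1 = ex 0 * U (b :: pre q (x :: -x :: pre m [x])) + ex 0 * U (b :: pre q (x :: 0 :: pre m [x])) +
    ex 0 * U (b :: pre q (0 :: -x :: pre m [x])) + ex 0 * U (b :: pre q (0 :: 0 :: pre m [x])) -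
    ex 0 * U (b :: pre (m + q + 2) [x]) := rfl
  have h2 : lt b * (in4 x m q - U (zs x (m + q + 2))) = lt b * U (pre q (x :: -x :: pre m [x])) +
      lt b * U (pre q (x :: 0 :: pre m [x])) + lt b * U (pre q (0 :: -x :: pre m [x])) + lt b * U (pre q (0 :: 0 :: pre m [x])) +
      (-1 : K) • (lt b * U (pre (m + q + 2) [x])) := by
    rw [in4, ← pre_eq_zs x (m + q + 2), neg_one_smul]
    ring
  rw [h1, h2, ig_add, ig_add, ig_add, ig_add, ig_smul, ex_zero]
  simp only [one_mul, U_cons, neg_one_smul, sub_eq_add_neg]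

theorem s2_val (x : K) (hx : x ≠ 0) (m q : ℕ) : (s2 x hx m q).1 = ex (-x) * HH2 (m + 2) (q + 2) x := by
  have h1 : (s2 x hx m q).1 = (s2b (-x) x hx m q).1 + (s2b 0 x hx m q).1 := rfl
  rw [h1, s2b_val, s2b_val, ← ig_add, ← ig_ex_in hx, lt_zero, lt_ne (neg_ne_zero.2 hx)]
  congr 1
  ring

/-! ### The derivations on the elements -/

theorem O1_yb {x b : K} (hx : x ≠ 0) (hb : b ≠ x) (m : ℕ) : O1 x (b :: pre m [x]) :=
  ⟨fun h => absurd h hb, O1_pre hx ⟨fun _ => by simp, trivial⟩⟩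

theorem not_mem_yb {x y b : K} (hy : y ≠ 0) (hxy : y ≠ x) (hb : y ≠ b) (m : ℕ) : y ∉ b :: pre m [x] := by
  intro h
  rcases List.mem_cons.1 h with h | h
  · exact hb h
  · rcases mem_pre h with h | h
    · exact hy h
    · rw [List.mem_singleton] at h; exact hxy h

theorem D2_s2b {x : K} (hx : x ≠ 0) (a b q m : ℕ) : D2 x a b (s2b (-x) x hx m q) =
      (2 * ((if q = a then (-1) ^ a else 0 : K) * (if m = b then (-1) ^ b else 0 : K))) • mk 0 [] trivial := by
  have hnx : -x ≠ 0 := neg_ne_zero.2 hx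
  have hnxx : -x ≠ x := neg_ne_self hx
  have hn2 : -x ∉ pre m [x] := fun h => by
    rcases mem_pre h with h | h
    · exact hnx h
    · rw [List.mem_singleton] at h; exact hnxx h
  have k1 : D2 x a b (mk 0 (-x :: pre q (x :: 0 :: pre m [x])) (adm_word hx (-x) x 0 q m)) = 0 := by
    refine D2_neg_N1 _ _ _ (mk_mem_N1 _ _ ⟨fun _ h => ?_, O1_of_notMem fun h => ?_⟩)
    all_goals
      rcases mem_pre h with h | h
      · exact hnx h
      · rcases List.mem_cons.1 h with h | h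
        · exact hnxx h
        · exact not_mem_yb hnx hnxx hnx m h
  have k2 : D2 x a b (mk 0 (-x :: pre q (0 :: -x :: pre m [x])) (adm_word hx (-x) 0 (-x) q m)) = 0 := by
    refine D2_N1 _ _ _ (mk_mem_N1 _ _ ⟨fun h => absurd h hnxx, O1_pre hx ⟨fun h => absurd h.symm hx, ?_⟩⟩)
    exact O1_yb hx hnxx m
  have k3 : D2 x a b (mk 0 (-x :: pre q (0 :: 0 :: pre m [x])) (adm_word hx (-x) 0 0 q m)) = 0 := by
    refine D2_N1 _ _ _ (mk_mem_N1 _ _ ⟨fun h => absurd h hnxx, O1_pre hx ⟨fun h => absurd h.symm hx, ?_⟩⟩)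
    exact O1_yb hx hx.symm m
  have k4 : D2 x a b (mk 0 (-x :: pre (m + q + 2) [x]) (adm_yb hx (-x) (m + q + 2))) = 0 :=
    D2_N1 _ _ _ (mk_mem_N1 _ _ (O1_yb hx hnxx _))
  rw [s2b, map_sub, map_add, map_add, map_add, k1, k2, k3, k4, add_zero, add_zero, add_zero, sub_zero]
  exact D2_mw hx 0 a b q m _

theorem D2_s20 {x : K} (hx : x ≠ 0) (a b q m : ℕ) : D2 x a b (s2b 0 x hx m q) = 0 := by
  have hnx : -x ≠ 0 := neg_ne_zero.2 hx
  have hnxx : -x ≠ x := neg_ne_self hx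
  have hn2 : -x ∉ pre m [x] := fun h => by
    rcases mem_pre h with h | h
    · exact hnx h
    · rw [List.mem_singleton] at h; exact hnxx h
  have k0 : D2 x a b (mk 0 (0 :: pre q (x :: -x :: pre m [x])) (adm_word hx 0 x (-x) q m)) = 0 := by
    refine D2_neg_N1 _ _ _ (mk_mem_N1 _ _ ⟨fun h => absurd h.symm hnx, O1_pre hnx ⟨fun h => absurd h.symm hnxx, ?_⟩⟩)
    exact ⟨fun _ => hn2, O1_of_notMem hn2⟩
  have k1 : D2 x a b (mk 0 (0 :: pre q (x :: 0 :: pre m [x])) (adm_word hx 0 x 0 q m)) = 0 := by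
    refine D2_neg_N1 _ _ _ (mk_mem_N1 _ _ ⟨fun h => absurd h.symm hnx, O1_pre hnx ⟨fun h => absurd h.symm hnxx, ?_⟩⟩)
    exact O1_of_notMem (not_mem_yb hnx hnxx hnx m)
  have k2 : D2 x a b (mk 0 (0 :: pre q (0 :: -x :: pre m [x])) (adm_word hx 0 0 (-x) q m)) = 0 := by
    refine D2_N1 _ _ _ (mk_mem_N1 _ _ ⟨fun h => absurd h.symm hx, O1_pre hx ⟨fun h => absurd h.symm hx, ?_⟩⟩)
    exact O1_yb hx hnxx m
  have k3 : D2 x a b (mk 0 (0 :: pre q (0 :: 0 :: pre m [x])) (adm_word hx 0 0 0 q m)) = 0 := by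
    refine D2_N1 _ _ _ (mk_mem_N1 _ _ ⟨fun h => absurd h.symm hx, O1_pre hx ⟨fun h => absurd h.symm hx, ?_⟩⟩)
    exact O1_yb hx hx.symm m
  have k4 : D2 x a b (mk 0 (0 :: pre (m + q + 2) [x]) (adm_yb hx 0 (m + q + 2))) = 0 :=
    D2_N1 _ _ _ (mk_mem_N1 _ _ (O1_yb hx hx.symm _))
  rw [s2b, map_sub, map_add, map_add, map_add, k0, k1, k2, k3, k4]
  simp

theorem D2_s2 {x : K} (hx : x ≠ 0) (a b q m : ℕ) : D2 x a b (s2 x hx m q) =
      (2 * ((if q = a then (-1) ^ a else 0 : K) * (if m = b then (-1) ^ b else 0 : K))) • mk 0 [] trivial := by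
  rw [s2, map_add, D2_s2b, D2_s20, add_zero]

/-- another point -/
theorem D2_s2_ne {x y : K} (hx : x ≠ 0) (hy : y ≠ 0) (hxy : x ≠ y) (hxy' : x + y ≠ 0) (a b q m : ℕ) :
    D2 x a b (s2 y hy m q) = 0 := by
  have h0 : x ≠ -y := fun h => hxy' (by rw [h]; ring)
  have hb : ∀ (c : K) (k : ℕ), x ≠ c → x ∉ c :: pre k [y] := fun c k hc => not_mem_yb hx hxy hc k
  have hw : ∀ b c d : K, (x ≠ b) → (x ≠ c) → (x ≠ d) → x ∉ b :: pre q (c :: d :: pre m [y]) := by
    intro b c d h1 h2 h3 h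
    rcases List.mem_cons.1 h with h | h
    · exact h1 h
    · rcases mem_pre h with h | h
      · exact hx h
      · rcases List.mem_cons.1 h with h | h
        · exact h2 h
        · exact hb d m h3 h
  have key : ∀ b' : K, x ≠ b' → D2 x a b (s2b b' y hy m q) = 0 := by
    intro b' hb'
    refine D2_N1 _ _ _ (NS_le_N1 _ ?_)
    rw [s2b]
    refine Submodule.sub_mem _ (Submodule.add_mem _ (Submodule.add_mem _ (Submodule.add_mem _ ?_ ?_) ?_) ?_) ?_
    · exact mk_mem_NS _ _ (hw _ _ _ hb' hxy h0)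
    · exact mk_mem_NS _ _ (hw _ _ _ hb' hxy hx)
    · exact mk_mem_NS _ _ (hw _ _ _ hb' hx h0)
    · exact mk_mem_NS _ _ (hw _ _ _ hb' hx hx)
    · exact mk_mem_NS _ _ (hb _ _ hb')
  rw [s2, map_add, key _ h0, key _ hx, add_zero]

/-- the elements `S_k(y)` -/
theorem D2_sk {x y : K} (hx : x ≠ 0) (hy : y ≠ 0) (hxy' : x + y ≠ 0) (a b m : ℕ) :
    D2 x a b (sk y hy m) = 0 := by
  have h0 : x ≠ -y := fun h => hxy' (by rw [h]; ring)
  refine D2_N1 _ _ _ ?_
  rw [sk]
  by_cases hxy : x = y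
  · subst hxy
    refine Submodule.add_mem _ (mk_mem_N1 _ _ ?_) (mk_mem_N1 _ _ ?_)
    · rw [wd, ← pre_eq_zs]; exact O1_yb hx h0.symm m
    · rw [← pre_eq_zs]; exact O1_pre hx ⟨fun _ => by simp, trivial⟩
  · refine NS_le_N1 _ (Submodule.add_mem _ (mk_mem_NS _ _ ?_) (mk_mem_NS _ _ ?_))
    · rw [wd, ← pre_eq_zs]; exact not_mem_yb hx hxy h0 m
    · rw [← pre_eq_zs]
      intro h
      rcases mem_pre h with h | h
      · exact hx h
      · rw [List.mem_singleton] at h; exact hxy h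

end

/-! ### The values -/

/-- the Poisson means of the double harmonic sums -/
noncomputable def PD (k l : ℕ) (x : ℂ) : ℂ := Complex.exp (-x) * ∑' j : ℕ, x ^ j / j.factorial * hh ℂ k l j

theorem HH2_mem {x : Qb} (hx : x ≠ 0) (m q : ℕ) : HH2 (m + 2) (q + 2) x ∈ SA Qb := by
  have h1 : HH2 (m + 2) (q + 2) x = ex x * (ex (-x) * HH2 (m + 2) (q + 2) x) := by
    rw [← mul_assoc, ← ex_add, add_neg_cancel, ex_zero, one_mul]
  rw [h1, ← s2_val x hx]
  refine SA_mul ?_ (s2 x hx m q).2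
  exact Submodule.subset_span ⟨x, [], trivial, by rw [U_nil, mul_one]⟩

theorem map_hh {K L : Type*} [Field K] [Field L] (φ : K →+* L) (k l n : ℕ) : φ (hh K k l n) = hh L k l n := by
  rw [hh, hh, map_sum]
  refine Finset.sum_congr rfl fun b _ => ?_
  rw [map_div₀, map_sum, map_pow, map_add, map_natCast, map_one]
  congr 1
  refine Finset.sum_congr rfl fun a _ => ?_
  rw [map_div₀, map_pow, map_add, map_natCast, map_one]

theorem evA_s2 {x : Qb} (hx : x ≠ 0) (m q : ℕ) : evA io (s2 x hx m q) = PD (m + 2) (q + 2) (io x) := by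
  rw [evA_apply, s2_val x hx, evk_mul (EFK.ex _) (EFK.of_mem (HH2_mem hx m q)), evk_ex, PD, map_neg]
  congr 1
  rw [evk]
  refine tsum_congr fun n => ?_
  rw [HH2, coeff_mk, map_mul, map_div₀, map_pow, map_natCast, map_hh]

end Pool.Agent.H18.Sq
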