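import Pool.Agent.H18.Sq.Val

/-!
# Algebraic independence of the Poisson means of the harmonic sums and the double harmonic sums
-/

set_option autoImplicit false
set_option linter.unusedSectionVars false

open PowerSeries Set

namespace Pool.Agent.H18.Sq

open Pool.Agent.N902.EW

/-- the values of the elements `S_k(x)` -/
def SV (X : Set Qb) (hX0 : ∀ x : X, x.1 ≠ 0) : Set ℂ := range (fun p : X × ℕ => evA io (sk p.1.1 (hX0 p.1) p.2))

theorem killed2 {X : Set Qb} (hX : ∀ x ∈ X, ∀ y ∈ X, x + y ≠ 0) (hX0 : ∀ x : X, x.1 ≠ 0) {z : ℂ} (hz : z ∈ GG ∪ SV X hX0) :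
    ∃ f : AA Qb, evA io f = z ∧ ∀ p : X × (ℕ × ℕ), D2 p.1.1 p.2.2 p.2.1 f = 0 := by
  rcases hz with ((hz | ⟨b, rfl⟩) | ⟨w, hw, hno, rfl⟩) | ⟨q, rfl⟩
  · refine ⟨algebraMap Qb (AA Qb) ⟨z, mem_algebraicClosure_iff'.2 hz.isIntegral⟩, evA_algebraMap _, fun p => ?_⟩
    exact Derivation.map_algebraMap _ _
  · refine ⟨mk b [] adm_nil, ?_, fun p => D2_kill (hX0 p.1) _ _ b _ (fun a ha => absurd ha (by simp))⟩
    rw [evA_mk, U_nil, evk_one, mul_one]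
  · refine ⟨mk 0 w hw, ?_, fun p => D2_kill (hX0 p.1) _ _ 0 _ hno⟩
    rw [evA_mk, evk_ex_zero, one_mul]
  · exact ⟨_, rfl, fun p => D2_sk (hX0 p.1) (hX0 q.1) (hX _ p.1.2 _ q.1.2) _ _ _⟩

theorem coeff_ne (a b : ℕ) : ((2 * ((-1) ^ a * (-1) ^ b) : Qb) • mk 0 [] adm_nil : AA Qb) ≠ 0 := by
  intro h
  have h1 : (2 * ((-1) ^ a * (-1) ^ b) : Qb) ≠ 0 :=
    mul_ne_zero two_ne_zero (mul_ne_zero (pow_ne_zero _ (by norm_num)) (pow_ne_zero _ (by norm_num)))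
  rcases smul_eq_zero.1 h with h2 | h2
  · exact h1 h2
  · have h3 := congrArg (evA io) h2
    rw [evA_mk, evk_ex_zero, U_nil, evk_one, map_zero, mul_one] at h3
    exact one_ne_zero h3

theorem ai_s2 (X : Set Qb) (hX : ∀ x ∈ X, ∀ y ∈ X, x + y ≠ 0) (hX0 : ∀ x : X, x.1 ≠ 0) :
    AlgebraicIndependent (IntermediateField.adjoin ℚ (GG ∪ SV X hX0))
      (fun p : X × (ℕ × ℕ) => evA io (s2 p.1.1 (hX0 p.1) p.2.1 p.2.2)) := by
  refine ai_general (GG ∪ SV X hX0) (fun p : X × (ℕ × ℕ) => s2 p.1.1 (hX0 p.1) p.2.1 p.2.2)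
    (fun p => D2 p.1.1 p.2.2 p.2.1) (fun z hz => killed2 hX hX0 hz)
    (fun p => (2 * ((-1) ^ p.2.2 * (-1) ^ p.2.1) : Qb) • mk 0 [] adm_nil) (fun p => coeff_ne _ _) (fun p => ?_) (fun p r hpr => ?_)
  · rw [D2_s2 (hX0 p.1), if_pos rfl, if_pos rfl]
  · by_cases h1 : p.1.1 = r.1.1
    · have h2 : s2 r.1.1 (hX0 r.1) r.2.1 r.2.2 = s2 p.1.1 (hX0 p.1) r.2.1 r.2.2 := by
        congr 1
        exact h1.symm
      rw [h2, D2_s2 (hX0 p.1)]
      have h3 : ¬ (r.2.2 = p.2.2 ∧ r.2.1 = p.2.1) := fun h =>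
        hpr (Prod.ext (Subtype.ext h1) (Prod.ext h.2.symm h.1.symm))
      by_cases h4 : r.2.2 = p.2.2
      · have h5 : r.2.1 ≠ p.2.1 := fun h => h3 ⟨h4, h⟩
        rw [if_neg h5, mul_zero, mul_zero, zero_smul]
      · rw [if_neg h4, zero_mul, mul_zero, zero_smul]
    · exact D2_s2_ne (hX0 p.1) (hX0 r.1) h1 (hX _ p.1.2 _ r.1.2) _ _ _ _

theorem ai_two (X : Set Qb) (hX : ∀ x ∈ X, ∀ y ∈ X, x + y ≠ 0) (hX0 : ∀ x : X, x.1 ≠ 0) :
    AlgebraicIndependent (IntermediateField.adjoin ℚ GG) (Sum.elim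
      (fun p : X × (ℕ × ℕ) => evA io (s2 p.1.1 (hX0 p.1) p.2.1 p.2.2))
      (fun p : X × ℕ => evA io (sk p.1.1 (hX0 p.1) p.2))) := by
  have hle : IntermediateField.adjoin ℚ GG ≤ IntermediateField.adjoin ℚ (GG ∪ SV X hX0) :=
    IntermediateField.adjoin.mono _ _ _ subset_union_left
  let _ : Algebra (IntermediateField.adjoin ℚ GG) (IntermediateField.adjoin ℚ (GG ∪ SV X hX0)) :=
    (IntermediateField.inclusion hle).toRingHom.toAlgebra
  have : IsScalarTower (IntermediateField.adjoin ℚ GG) (IntermediateField.adjoin ℚ (GG ∪ SV X hX0)) ℂ :=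
    IsScalarTower.of_algebraMap_eq fun _ => rfl
  refine (ai_values X hX hX0).sumElim_of_tower (S := IntermediateField.adjoin ℚ (GG ∪ SV X hX0)) ?_ (ai_s2 X hX hX0)
  rintro _ ⟨p, rfl⟩
  exact ⟨⟨_, IntermediateField.subset_adjoin _ _ (Or.inr ⟨p, rfl⟩)⟩, rfl⟩

/-- the index set of the numbers `S_{k,l}(x)` -/
abbrev I2 (X : Set ℂ) : Type := {p : (ℕ × ℕ) × ℂ // 2 ≤ p.1.1 ∧ 2 ≤ p.1.2 ∧ p.2 ∈ X}

/-- the index set of the numbers `S_k(x)` -/
abbrev I1 (X : Set ℂ) : Type := {p : ℕ × ℂ // 2 ≤ p.1 ∧ p.2 ∈ X}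

/-- the values are algebraically independent over the base field -/
theorem ai_PD (X : Set ℂ) (hX : ∀ x ∈ X, IsAlgebraic ℚ x ∧ ∀ y ∈ X, x + y ≠ 0) :
    AlgebraicIndependent KK (Sum.elim (fun p : I2 X => PD p.1.1.1 p.1.1.2 p.1.2) (fun p : I1 X => PS p.1.1 p.1.2)) := by
  have hne : ∀ x ∈ X, x ≠ 0 := by
    intro x hx h0
    exact (hX x hx).2 x hx (by rw [h0, add_zero])
  let X' : Set Qb := {x | io x ∈ X}
  have hX' : ∀ x ∈ X', ∀ y ∈ X', x + y ≠ 0 := by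
    intro x hx y hy h
    refine (hX _ hx).2 _ hy ?_
    rw [← map_add, h, map_zero]
  have hX0 : ∀ x : X', x.1 ≠ 0 := fun x h => hne _ x.2 (by rw [h, map_zero])
  have h1 := ai_two X' hX' hX0
  rw [GG_eq] at h1
  choose f hf using fun x : X => mem_range_io (hX x.1 x.2).1
  have hfX : ∀ x : X, io (f x) ∈ X := fun x => by rw [hf]; exact x.2
  let g : I2 X ⊕ I1 X → (X' × (ℕ × ℕ)) ⊕ (X' × ℕ) := Sum.map
    (fun p => (⟨f ⟨p.1.2, p.2.2.2⟩, hfX _⟩, (p.1.1.1 - 2, p.1.1.2 - 2)))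
    (fun p => (⟨f ⟨p.1.2, p.2.2⟩, hfX _⟩, p.1.1 - 2))
  have hg : Function.Injective g := by
    refine Function.Injective.sumMap ?_ ?_
    · intro p q h
      have e1 : f ⟨p.1.2, p.2.2.2⟩ = f ⟨q.1.2, q.2.2.2⟩ := congrArg (fun z => z.1.1) h
      have e2 : p.1.1.1 - 2 = q.1.1.1 - 2 := congrArg (fun z => z.2.1) h
      have e3 : p.1.1.2 - 2 = q.1.1.2 - 2 := congrArg (fun z => z.2.2) h
      have hp1 := p.2.1
      have hp2 := p.2.2.1
      have hq1 := q.2.1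
      have hq2 := q.2.2.1
      have e4 : p.1.2 = q.1.2 := by
        have := congrArg io e1
        rwa [hf, hf] at this
      exact Subtype.ext (Prod.ext (Prod.ext (by omega) (by omega)) e4)
    · intro p q h
      have e1 : f ⟨p.1.2, p.2.2⟩ = f ⟨q.1.2, q.2.2⟩ := congrArg (fun z => z.1.1) h
      have e2 : p.1.1 - 2 = q.1.1 - 2 := congrArg (fun z => z.2) h
      have hp1 := p.2.1
      have hq1 := q.2.1
      have e4 : p.1.2 = q.1.2 := by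
        have := congrArg io e1
        rwa [hf, hf] at this
      exact Subtype.ext (Prod.ext (by omega) e4)
  have h2 := h1.comp g hg
  have h3 : (Sum.elim (fun p : X' × (ℕ × ℕ) => evA io (s2 p.1.1 (hX0 p.1) p.2.1 p.2.2))
      (fun p : X' × ℕ => evA io (sk p.1.1 (hX0 p.1) p.2))) ∘ g =
      Sum.elim (fun p : I2 X => PD p.1.1.1 p.1.1.2 p.1.2) (fun p : I1 X => PS p.1.1 p.1.2) := by
    funext p
    rcases p with p | p
    · show evA io (s2 (f ⟨p.1.2, p.2.2.2⟩) _ (p.1.1.1 - 2) (p.1.1.2 - 2)) = PD p.1.1.1 p.1.1.2 p.1.2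
      have hp1 := p.2.1
      have hp2 := p.2.2.1
      rw [evA_s2, hf, Nat.sub_add_cancel hp1, Nat.sub_add_cancel hp2]
    · show evA io (sk (f ⟨p.1.2, p.2.2⟩) _ (p.1.1 - 2)) = PS p.1.1 p.1.2
      have hp1 := p.2.1
      rw [evA_sk, hf, Nat.sub_add_cancel hp1]
  rw [h3] at h2
  exact h2

/-! ### The mean squares of the tails -/

/-- the Poisson mean of the squares of the tails of `ζ(k)` -/
noncomputable def PQ (k : ℕ) (x : ℂ) : ℂ :=
  Complex.exp (-x) * ∑' j : ℕ, x ^ j / j.factorial * (∑' i : ℕ, 1 / ((i : ℂ) + j + 1) ^ k) ^ 2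

theorem sq_hs (k j : ℕ) : (∑ i ∈ Finset.range j, 1 / ((i : ℂ) + 1) ^ k) ^ 2 =
    2 * hh ℂ k k j + ∑ i ∈ Finset.range j, 1 / ((i : ℂ) + 1) ^ (2 * k) := by
  induction j with
  | zero => simp [hh]
  | succ j ih =>
    have h1 : hh ℂ k k (j + 1) = hh ℂ k k j + (∑ a ∈ Finset.range j, 1 / ((a : ℂ) + 1) ^ k) / ((j : ℂ) + 1) ^ k := by
      rw [hh, Finset.sum_range_succ, ← hh]
    rw [Finset.sum_range_succ, Finset.sum_range_succ, h1, add_sq, ih, two_mul k, pow_add]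
    have h3 : ((j : ℂ) + 1) ≠ 0 := by exact_mod_cast Nat.succ_ne_zero j
    field_simp
    ring

theorem PQ_eq {k : ℕ} (hk : 2 ≤ k) (x : ℂ) :
    PQ k x = riemannZeta k ^ 2 - 2 * riemannZeta k * PS k x + 2 * PD k k x + PS (2 * k) x := by
  have bd : ∀ {k : ℕ}, 2 ≤ k → ∃ Z : ℝ, 0 ≤ Z ∧ ∀ j : ℕ, ‖∑ i ∈ Finset.range j, (1 : ℂ) / ((i : ℂ) + 1) ^ k‖ ≤ Z := by
    intro k hk
    have hn : Summable fun i : ℕ => ‖(1 : ℂ) / ((i : ℂ) + 1) ^ k‖ := (summ_zeta hk).norm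
    exact ⟨∑' i : ℕ, ‖(1 : ℂ) / ((i : ℂ) + 1) ^ k‖, tsum_nonneg fun _ => norm_nonneg _, fun j =>
      (norm_sum_le _ _).trans (hn.sum_le_tsum _ fun _ _ => norm_nonneg _)⟩
  have hs := summ_zeta hk
  have hsplit : ∀ j : ℕ, (∑' i : ℕ, 1 / ((i : ℂ) + j + 1) ^ k) =
      riemannZeta k - (∑ i ∈ Finset.range j, 1 / ((i : ℂ) + 1) ^ k) := by
    intro j
    rw [zeta_eq hk, ← hs.sum_add_tsum_nat_add j, add_sub_cancel_left]
    exact tsum_congr fun i => by push_cast; rfl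
  have hexp : Summable fun j : ℕ => ‖x ^ j / (j.factorial : ℂ)‖ := NormedSpace.norm_expSeries_div_summable x
  have sb : ∀ (c : ℕ → ℂ) (C : ℝ), (∀ j, ‖c j‖ ≤ C) → Summable fun j : ℕ => x ^ j / (j.factorial : ℂ) * c j := by
    intro c C hc
    refine Summable.of_norm_bounded (hexp.mul_right C) fun j => ?_
    rw [norm_mul]
    exact mul_le_mul_of_nonneg_left (hc j) (norm_nonneg _)
  obtain ⟨Z, hZ0, hZ⟩ := bd hk
  obtain ⟨W, hW0, hW⟩ := bd (k := 2 * k) (by omega)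
  have hH : ∀ j, ‖hh ℂ k k j‖ ≤ (Z ^ 2 + W) / 2 := by
    intro j
    have h1 : hh ℂ k k j = ((∑ i ∈ Finset.range j, 1 / ((i : ℂ) + 1) ^ k) ^ 2 -
        ∑ i ∈ Finset.range j, 1 / ((i : ℂ) + 1) ^ (2 * k)) / 2 := by rw [sq_hs]; ring
    rw [h1, norm_div, Complex.norm_ofNat]
    refine div_le_div_of_nonneg_right ((norm_sub_le _ _).trans (add_le_add ?_ (hW j))) (by norm_num)
    rw [norm_pow]
    exact pow_le_pow_left₀ (norm_nonneg _) (hZ j) 2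
  have s0 := sb (fun _ => (1 : ℂ)) 1 (fun _ => by simp)
  have s1 := sb (fun j => ∑ i ∈ Finset.range j, 1 / ((i : ℂ) + 1) ^ k) Z hZ
  have s2 := sb (fun j => hh ℂ k k j) _ hH
  have s3 := sb (fun j => ∑ i ∈ Finset.range j, 1 / ((i : ℂ) + 1) ^ (2 * k)) W hW
  have e1 : Complex.exp (-x) * ∑' j : ℕ, x ^ j / (j.factorial : ℂ) * 1 = 1 := by
    simp only [mul_one]
    have : (∑' j : ℕ, x ^ j / (j.factorial : ℂ)) = Complex.exp x := by
      rw [Complex.exp_eq_exp_ℂ, NormedSpace.exp_eq_tsum_div]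
    rw [this, ← Complex.exp_add, neg_add_cancel, Complex.exp_zero]
  have key : HasSum (fun j : ℕ => x ^ j / (j.factorial : ℂ) * (∑' i : ℕ, 1 / ((i : ℂ) + j + 1) ^ k) ^ 2)
      (riemannZeta k ^ 2 * (∑' j : ℕ, x ^ j / (j.factorial : ℂ) * 1) -
        2 * riemannZeta k * (∑' j : ℕ, x ^ j / (j.factorial : ℂ) * ∑ i ∈ Finset.range j, 1 / ((i : ℂ) + 1) ^ k) +
        2 * (∑' j : ℕ, x ^ j / (j.factorial : ℂ) * hh ℂ k k j) +
        ∑' j : ℕ, x ^ j / (j.factorial : ℂ) * ∑ i ∈ Finset.range j, 1 / ((i : ℂ) + 1) ^ (2 * k)) := by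
    have h := (((s0.hasSum.mul_left (riemannZeta k ^ 2)).sub (s1.hasSum.mul_left (2 * riemannZeta k))).add
      (s2.hasSum.mul_left 2)).add s3.hasSum
    refine h.congr_fun ?_ 
    intro j
    rw [hsplit j, sub_sq, sq_hs]
    ring
  rw [PQ, key.tsum_eq, PS, PD, PS]
  have e2 : Complex.exp (-x) * (riemannZeta k ^ 2 * ∑' j : ℕ, x ^ j / (j.factorial : ℂ) * 1) = riemannZeta k ^ 2 := by
    rw [mul_left_comm, e1, mul_one]
  linear_combination e2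

end Pool.Agent.H18.Sq
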