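import Pool.Agent.H18.L.N902.EW.Ei
import Pool.Agent.H18.L.N902.EW.Ps

/-!
# Derivations dual to words with two pairs of opposite letters
-/

set_option autoImplicit false
set_option linter.unusedSectionVars false

open PowerSeries

namespace Pool.Agent.H18.Sq

open Pool.Agent.N902.EW

variable {K : Type*} [Field K] [CharZero K]

/-- the letter `y` occurs at most once -/
def O1 (y : K) : List K → Prop
  | [] => True
  | a :: v => (a = y → y ∉ v) ∧ O1 y v

theorem O1_of_notMem {y : K} {w : List K} (h : y ∉ w) : O1 y w := by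
  induction w with
  | nil => trivial
  | cons a v ih =>
    exact ⟨fun _ h' => h (List.mem_cons_of_mem _ h'), ih fun h' => h (List.mem_cons_of_mem _ h')⟩

/-- the span of the words in which `y` occurs at most once -/
noncomputable def N1 (y : K) : Submodule K (AA K) :=
  Submodule.span K {f | ∃ (l : K) (w : List K) (h : Adm w), O1 y w ∧ f = mk l w h}

theorem mk_mem_N1 {y : K} (l : K) {w : List K} (h : Adm w) (hy : O1 y w) : mk l w h ∈ N1 y :=
  Submodule.subset_span ⟨l, w, h, hy, rfl⟩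

theorem NS_le_N1 (y : K) : NS y ≤ N1 y := by
  refine Submodule.span_mono ?_
  rintro _ ⟨l, w, h, hy, rfl⟩
  exact ⟨l, w, h, O1_of_notMem hy, rfl⟩

theorem DA_N1 (a y : K) {f : AA K} (hf : f ∈ N1 y) : DA a f ∈ N1 y := by
  refine Submodule.span_induction (p := fun f _ => DA a f ∈ N1 y) ?_ ?_ ?_ ?_ hf
  · rintro _ ⟨l, w, h, hy, rfl⟩
    rcases w with _ | ⟨b, v⟩
    · rw [DA_nil]; exact Submodule.zero_mem _
    · by_cases hab : b = a
      · subst hab
        rw [DA_self]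
        exact mk_mem_N1 _ _ hy.2
      · rw [DA_ne hab]; exact Submodule.zero_mem _
  · rw [map_zero]; exact Submodule.zero_mem _
  · intro x y _ _ hx hy; rw [map_add]; exact Submodule.add_mem _ hx hy
  · intro c x _ hx; rw [Derivation.map_smul]; exact Submodule.smul_mem _ _ hx

theorem DA_N1_self (y : K) {f : AA K} (hf : f ∈ N1 y) : DA y f ∈ NS y := by
  refine Submodule.span_induction (p := fun f _ => DA y f ∈ NS y) ?_ ?_ ?_ ?_ hf
  · rintro _ ⟨l, w, h, hy, rfl⟩
    rcases w with _ | ⟨b, v⟩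
    · rw [DA_nil]; exact Submodule.zero_mem _
    · by_cases hab : b = y
      · subst hab
        rw [DA_self]
        exact mk_mem_NS _ _ (hy.1 rfl)
      · rw [DA_ne hab]; exact Submodule.zero_mem _
  · rw [map_zero]; exact Submodule.zero_mem _
  · intro x y _ _ hx hy; rw [map_add]; exact Submodule.add_mem _ hx hy
  · intro c x _ hx; rw [Derivation.map_smul]; exact Submodule.smul_mem _ _ hx

theorem Ek_N1 (x y : K) (n : ℕ) {f : AA K} (hf : f ∈ N1 y) : Ek x n f ∈ N1 y := by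
  induction n generalizing f with
  | zero => exact DA_N1 _ _ hf
  | succ n ih =>
    rw [Ek_succ]
    exact Submodule.sub_mem _ (DA_N1 _ _ (ih hf)) (ih (DA_N1 _ _ hf))

theorem Ek_N1_self (x : K) (n : ℕ) {f : AA K} (hf : f ∈ N1 x) : Ek x n f ∈ NS x := by
  induction n generalizing f with
  | zero => exact DA_N1_self _ hf
  | succ n ih =>
    rw [Ek_succ]
    exact Submodule.sub_mem _ (DA_NS _ _ (ih hf)) (ih (DA_N1 _ _ hf))

/-- the derivation dual to `(-x, 0^a, x, -x, 0^b, x)` -/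
noncomputable def D2 (x : K) (a b : ℕ) : Derivation K (AA K) (AA K) := ⁅⁅Dk x a, DA (-x)⁆, Ek x b⁆

/-- the inner commutator -/
noncomputable def D1 (x : K) (a : ℕ) : Derivation K (AA K) (AA K) := ⁅Dk x a, DA (-x)⁆

theorem D1_apply (x : K) (a : ℕ) (f : AA K) : D1 x a f = Dk x a (DA (-x) f) - DA (-x) (Dk x a f) :=
  Derivation.commutator_apply f

theorem D2_apply (x : K) (a b : ℕ) (f : AA K) : D2 x a b f = D1 x a (Ek x b f) - Ek x b (D1 x a f) :=
  Derivation.commutator_apply f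

/-! ### Kills -/

theorem Dk_neg_N1 (x : K) (a : ℕ) {f : AA K} (hf : f ∈ N1 (-x)) : Dk x a f ∈ NS (-x) := by
  rw [Dk_apply]
  exact Submodule.sub_mem _ (Ek_NS _ _ _ (DA_N1_self _ hf)) (DA_N1_self _ (Ek_N1 _ _ _ hf))

theorem Dk_neg_NS (x : K) (a : ℕ) {f : AA K} (hf : f ∈ NS (-x)) : Dk x a f = 0 := by
  rw [Dk_apply, DA_NS_self _ hf, map_zero, DA_NS_self _ (Ek_NS _ _ _ hf), sub_zero]

theorem D1_neg_N1 (x : K) (a : ℕ) {f : AA K} (hf : f ∈ N1 (-x)) : D1 x a f = 0 := by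
  rw [D1_apply, Dk_neg_NS _ _ (DA_N1_self _ hf), DA_NS_self _ (Dk_neg_N1 _ _ hf), sub_zero]

theorem D2_neg_N1 (x : K) (a b : ℕ) {f : AA K} (hf : f ∈ N1 (-x)) : D2 x a b f = 0 := by
  rw [D2_apply, D1_neg_N1 _ _ (Ek_N1 _ _ _ hf), D1_neg_N1 _ _ hf, map_zero, sub_zero]

theorem Dk_N1 (x : K) (a : ℕ) {f : AA K} (hf : f ∈ N1 x) : Dk x a f ∈ NS x := by
  rw [Dk_apply]
  exact Submodule.sub_mem _ (Ek_N1_self _ _ (DA_N1 _ _ hf)) (DA_NS _ _ (Ek_N1_self _ _ hf))

theorem D1_N1 (x : K) (a : ℕ) {f : AA K} (hf : f ∈ N1 x) : D1 x a f ∈ NS x := by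
  rw [D1_apply]
  exact Submodule.sub_mem _ (Dk_N1 _ _ (DA_N1 _ _ hf)) (DA_NS _ _ (Dk_N1 _ _ hf))

theorem Dk_NS (x : K) (a : ℕ) {f : AA K} (hf : f ∈ NS x) : Dk x a f = 0 := by
  rw [Dk_apply, Ek_NS_self _ _ (DA_NS _ _ hf), Ek_NS_self _ _ hf, map_zero, sub_zero]

theorem D1_NS (x : K) (a : ℕ) {f : AA K} (hf : f ∈ NS x) : D1 x a f = 0 := by
  rw [D1_apply, Dk_NS _ _ (DA_NS _ _ hf), Dk_NS _ _ hf, map_zero, sub_zero]

theorem D2_N1 (x : K) (a b : ℕ) {f : AA K} (hf : f ∈ N1 x) : D2 x a b f = 0 := by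
  rw [D2_apply, D1_NS _ _ (Ek_N1_self _ _ hf), Ek_NS_self _ _ (D1_N1 _ _ hf), sub_zero]

theorem D2_kill {x : K} (hx : x ≠ 0) (a b : ℕ) (l : K) {w : List K} (h : Adm w) (hw : NoOpp w) :
    D2 x a b (mk l w h) = 0 := by
  by_cases hxw : x ∈ w
  · exact D2_neg_N1 _ _ _ (NS_le_N1 _ (mk_mem_NS l h (hw x hxw hx)))
  · exact D2_N1 _ _ _ (NS_le_N1 _ (mk_mem_NS l h hxw))

/-! ### The main words -/

/-- `m` zeros in front -/
def pre (m : ℕ) (v : List K) : List K := match m with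
  | 0 => v
  | m + 1 => 0 :: pre m v

theorem pre_zero (v : List K) : pre 0 v = v := rfl

theorem pre_succ (m : ℕ) (v : List K) : pre (m + 1) v = 0 :: pre m v := rfl

theorem adm_pre {m : ℕ} {v : List K} (h : Adm v) (hv : v ≠ []) : Adm (pre m v) ∧ pre m v ≠ [] := by
  induction m with
  | zero => exact ⟨h, hv⟩
  | succ m ih => exact ⟨adm_cons ih.1 ih.2, by rw [pre_succ]; simp⟩

theorem mem_pre {m : ℕ} {v : List K} {a : K} (h : a ∈ pre m v) : a = 0 ∨ a ∈ v := by
  induction m with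
  | zero => right; exact h
  | succ m ih =>
    rw [pre_succ] at h
    rcases List.mem_cons.1 h with h | h
    · left; exact h
    · exact ih h

theorem O1_pre {y : K} (hy : y ≠ 0) {m : ℕ} {v : List K} (h : O1 y v) : O1 y (pre m v) := by
  induction m with
  | zero => exact h
  | succ m ih => exact ⟨fun h' => absurd h'.symm hy, ih⟩

theorem DA_pre_ne {x c : K} (hc : c ≠ 0) (hcx : c ≠ x) (m : ℕ) (l : K) (v : List K) (h : Adm (pre m (x :: v))) :
    DA c (mk l (pre m (x :: v)) h) = 0 := by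
  rcases m with _ | m
  · exact DA_ne (Ne.symm hcx) _ _ _
  · exact DA_ne (Ne.symm hc) _ _ _

theorem Ek_pre {x : K} (hx : x ≠ 0) (l : K) (v : List K) (hv : Adm v) (h0 : DA 0 (mk l v hv) = 0) (n : ℕ) :
    ∀ (m : ℕ) (h : Adm (pre m (x :: v))),
      Ek x n (mk l (pre m (x :: v)) h) = (if m = n then (-1) ^ n else 0 : K) • mk l v hv := by
  induction n with
  | zero =>
    intro m h
    rcases m with _ | m
    · rw [if_pos rfl, pow_zero, one_smul, Ek_zero]
      exact DA_self x l v h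
    · rw [if_neg (Nat.succ_ne_zero m), zero_smul, Ek_zero]
      exact DA_ne (Ne.symm hx) l _ h
  | succ n ih =>
    intro m h
    rw [Ek_succ, ih m h, Derivation.map_smul, h0, smul_zero, zero_sub]
    rcases m with _ | m
    · rw [if_neg (Nat.succ_ne_zero n).symm, zero_smul]
      have h1 : DA 0 (mk l (pre 0 (x :: v)) h) = 0 := DA_ne hx l v h
      rw [h1, map_zero, neg_zero]
    · have h1 : DA 0 (mk l (pre (m + 1) (x :: v)) h) = mk l (pre m (x :: v)) h.1 := DA_self 0 l _ h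
      rw [h1, ih m h.1]
      by_cases hmn : m = n
      · rw [if_pos hmn, if_pos (by rw [hmn]), pow_succ, mul_neg_one, neg_smul]
      · rw [if_neg hmn, if_neg (fun h => hmn (Nat.succ_injective h)), zero_smul, neg_zero]

/-- the main words -/
def mw (x : K) (q m : ℕ) : List K := -x :: pre q (x :: -x :: pre m [x])

theorem adm_single {x : K} (hx : x ≠ 0) : Adm [x] := ⟨trivial, fun _ => hx⟩

theorem adm_b {x : K} (hx : x ≠ 0) (m : ℕ) : Adm (pre m [x]) := (adm_pre (adm_single hx) (by simp)).1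

theorem adm_yb {x : K} (hx : x ≠ 0) (c : K) (m : ℕ) : Adm (c :: pre m [x]) :=
  adm_cons (adm_b hx m) (adm_pre (adm_single hx) (by simp)).2

theorem adm_ayb {x : K} (hx : x ≠ 0) (c d : K) (q m : ℕ) : Adm (pre q (c :: d :: pre m [x])) ∧
    pre q (c :: d :: pre m [x]) ≠ [] :=
  adm_pre (adm_cons (adm_yb hx d m) (by simp)) (by simp)

theorem adm_word {x : K} (hx : x ≠ 0) (b c d : K) (q m : ℕ) : Adm (b :: pre q (c :: d :: pre m [x])) :=
  adm_cons (adm_ayb hx c d q m).1 (adm_ayb hx c d q m).2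

theorem D2_mw {x : K} (hx : x ≠ 0) (l : K) (a b q m : ℕ) (h : Adm (mw x q m)) :
    D2 x a b (mk l (mw x q m) h) =
      (2 * ((if q = a then (-1) ^ a else 0 : K) * (if m = b then (-1) ^ b else 0 : K))) • mk l [] trivial := by
  have hnx : -x ≠ 0 := neg_ne_zero.2 hx
  have hnxx : -x ≠ x := neg_ne_self hx
  set α : K := if q = a then (-1) ^ a else 0
  set β : K := if m = b then (-1) ^ b else 0
  -- words
  have e1 : DA (-x) (mk l (mw x q m) h) = mk l (pre q (x :: -x :: pre m [x])) (adm_ayb hx x (-x) q m).1 :=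
    DA_self (-x) l _ h
  have e2 : DA (-x) (mk l (pre q (x :: -x :: pre m [x])) (adm_ayb hx x (-x) q m).1) = 0 :=
    DA_pre_ne hnx hnxx _ _ _ _
  have e3 : Ek x a (mk l (pre q (x :: -x :: pre m [x])) (adm_ayb hx x (-x) q m).1) =
      α • mk l (-x :: pre m [x]) (adm_yb hx (-x) m) :=
    Ek_pre hx l _ (adm_yb hx (-x) m) (DA_ne hnx _ _ _) a q _
  have e4 : DA (-x) (mk l (-x :: pre m [x]) (adm_yb hx (-x) m)) = mk l (pre m [x]) (adm_b hx m) :=
    DA_self (-x) l _ _
  have e5 : Ek x a (mk l (mw x q m) h) = 0 := Ek_ne hnx hnxx _ _ _ _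
  have e5' : Ek x b (mk l (mw x q m) h) = 0 := Ek_ne hnx hnxx _ _ _ _
  have e6 : Ek x b (mk l (pre m [x]) (adm_b hx m)) = β • mk l [] trivial :=
    Ek_pre hx l [] trivial (DA_nil _ _ _) b m _
  have k1 : Dk x a (mk l (pre q (x :: -x :: pre m [x])) (adm_ayb hx x (-x) q m).1) =
      -(α • mk l (pre m [x]) (adm_b hx m)) := by
    rw [Dk_apply, e2, map_zero, e3, Derivation.map_smul, e4, zero_sub]
  have k2 : Dk x a (mk l (mw x q m) h) = α • mk l (-x :: pre m [x]) (adm_yb hx (-x) m) := by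
    rw [Dk_apply, e1, e3, e5, map_zero, sub_zero]
  have k3 : D1 x a (mk l (mw x q m) h) = -((2 * α) • mk l (pre m [x]) (adm_b hx m)) := by
    rw [D1_apply, e1, k1, k2, Derivation.map_smul, e4, two_mul, add_smul]
    abel
  rw [D2_apply, e5', map_zero, k3, map_neg, Derivation.map_smul, e6, smul_smul, zero_sub, neg_neg, mul_assoc]

end Pool.Agent.H18.Sq
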